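import Mathlib
import Pool.Agent.Helper15.UH.Goals

/-!
# Packet SEQ for `MP_ba83fc_ag`
-/

namespace UnrCoh

theorem pp_zero : pp 0 = 4 := rfl
theorem qq_zero : qq 0 = 2 := rfl
theorem rr_zero : rr 0 ^ 2 = 12 := csq_sq 12
theorem pp_succ (m : ℕ) : pp (m + 1) = pp m + rr m := rfl
theorem qq_succ (m : ℕ) : qq (m + 1) = pp m - rr m := rfl
theorem rr_succ (m : ℕ) : rr (m + 1) ^ 2 = 4 * pp m * rr m := csq_sq _

theorem rr_rel (m : ℕ) : rr m ^ 2 = pp m ^ 2 - qq m ^ 2 := by
  cases m with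
  | zero => rw [rr_zero, pp_zero, qq_zero]; norm_num
  | succ m => rw [rr_succ, pp_succ, qq_succ]; ring

/-- There is a valuation ring of `ℂ` over `3`. -/
theorem exists_val3 : ∃ A : ValuationSubring ℂ, A.valuation 3 < 1 := by
  let R : Subring ℂ := (Int.castRingHom ℂ).range
  have h3 : (3 : ℂ) ∈ R := ⟨3, by simp⟩
  let I : Ideal R := Ideal.span {⟨3, h3⟩}
  have hI : I ≠ ⊤ := by
    intro h
    have h1 : (1 : R) ∈ I := by rw [h]; trivial
    obtain ⟨a, ha⟩ := Ideal.mem_span_singleton'.1 h1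
    obtain ⟨n, hn⟩ := a.2
    have h2 : (a : ℂ) * 3 = 1 := by
      have := congrArg (Subtype.val) ha
      simpa using this
    rw [← hn] at h2
    have h4 : ((n * 3 : ℤ) : ℂ) = ((1 : ℤ) : ℂ) := by
      push_cast
      simpa using h2
    have h5 : n * 3 = 1 := by exact_mod_cast h4
    omega
  obtain ⟨V, -, hV⟩ := Ideal.image_subset_nonunits_valuationSubring I hI
  refine ⟨V, ?_⟩
  have : (3 : ℂ) ∈ V.nonunits := hV ⟨⟨3, h3⟩, Ideal.subset_span rfl, rfl⟩
  exact V.mem_nonunits_iff.1 this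

section Val

variable {Γ : Type*} [LinearOrderedCommGroupWithZero Γ] (v : Valuation ℂ Γ)

theorem val_two (h3 : v 3 < 1) : v 2 = 1 := by
  have h : v (3 - 1 : ℂ) = v 1 := v.map_sub_eq_of_lt_right (by rwa [map_one])
  rw [map_one] at h
  rw [← h]; norm_num

theorem val_four (h3 : v 3 < 1) : v 4 = 1 := by
  have : (4 : ℂ) = 2 * 2 := by norm_num
  rw [this, map_mul, val_two v h3, one_mul]

theorem val_seq (h3 : v 3 < 1) (m : ℕ) : v (pp m) = 1 ∧ v (rr m) < 1 := by
  induction m with
  | zero =>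
    refine ⟨by rw [pp_zero, val_four v h3], ?_⟩
    have h : v (rr 0) ^ 2 < 1 := by
      rw [← map_pow, rr_zero]
      have : (12 : ℂ) = 4 * 3 := by norm_num
      rw [this, map_mul, val_four v h3, one_mul]
      exact h3
    exact (pow_lt_one_iff two_ne_zero).1 h
  | succ m ih =>
    obtain ⟨hp, hr⟩ := ih
    refine ⟨?_, ?_⟩
    · rw [pp_succ, v.map_add_eq_of_lt_left (by rw [hp]; exact hr), hp]
    · have h : v (rr (m + 1)) ^ 2 < 1 := by
        rw [← map_pow, rr_succ, map_mul, map_mul, val_four v h3, hp, one_mul, one_mul]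
        exact hr
      exact (pow_lt_one_iff two_ne_zero).1 h

theorem val_qq (h3 : v 3 < 1) (m : ℕ) : v (qq m) = 1 := by
  cases m with
  | zero => rw [qq_zero, val_two v h3]
  | succ m =>
    obtain ⟨hp, hr⟩ := val_seq v h3 m
    rw [qq_succ, v.map_sub_eq_of_lt_left (by rw [hp]; exact hr), hp]

theorem val_kk (h3 : v 3 < 1) (m : ℕ) : v (kk m) = 1 := by
  rw [kk, map_div₀, (val_seq v h3 m).1, val_qq v h3 m, div_one]

end Val

theorem pp_ne (m : ℕ) : pp m ≠ 0 := by
  obtain ⟨A, hA⟩ := exists_val3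
  intro h
  have := (val_seq A.valuation hA m).1
  rw [h, map_zero] at this
  exact zero_ne_one this

theorem qq_ne (m : ℕ) : qq m ≠ 0 := by
  obtain ⟨A, hA⟩ := exists_val3
  intro h
  have := val_qq A.valuation hA m
  rw [h, map_zero] at this
  exact zero_ne_one this

theorem kk_ne (m : ℕ) : kk m ≠ 0 := div_ne_zero (qq_ne m) (pp_ne m)

theorem rr_ne (m : ℕ) : rr m ≠ 0 := by
  induction m with
  | zero =>
    intro h
    have := rr_zero
    rw [h] at this
    norm_num at this
  | succ m ih =>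
    intro h
    have h1 := rr_succ m
    rw [h] at h1
    have h2 : 4 * pp m * rr m ≠ 0 := mul_ne_zero (mul_ne_zero (by norm_num) (pp_ne m)) ih
    exact h2 (by rw [← h1]; norm_num)

theorem one_sub_kk_sq (m : ℕ) : 1 - kk m ^ 2 = rr m ^ 2 / pp m ^ 2 := by
  rw [kk, rr_rel, div_pow, sub_div, div_self (pow_ne_zero 2 (pp_ne m))]

theorem kk_injective : Function.Injective kk := by
  obtain ⟨A, hA⟩ := exists_val3
  have hv : ∀ m, A.valuation (1 - kk m ^ 2) = A.valuation (rr m) ^ 2 := by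
    intro m
    rw [one_sub_kk_sq, map_div₀, map_pow, map_pow, (val_seq A.valuation hA m).1, one_pow, div_one]
  have hmono : StrictMono (fun m => A.valuation (1 - kk m ^ 2)) := by
    apply strictMono_nat_of_lt_succ
    intro m
    simp only [hv]
    obtain ⟨hp, hr⟩ := val_seq A.valuation hA m
    have h0 : 0 < A.valuation (rr m) := by
      rw [zero_lt_iff]
      exact (Valuation.ne_zero_iff _).2 (rr_ne m)
    have h1 : A.valuation (rr (m + 1)) ^ 2 = A.valuation (rr m) := by
      rw [← map_pow, rr_succ, map_mul, map_mul, val_four _ hA, hp, one_mul, one_mul]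
    rw [h1, sq]
    calc A.valuation (rr m) * A.valuation (rr m) < A.valuation (rr m) * 1 :=
          mul_lt_mul_of_pos_left hr h0
      _ = A.valuation (rr m) := mul_one _
  intro a b hab
  exact hmono.injective (by simp only [hab])

theorem alg_pr (m : ℕ) : IsAlgebraic ℚ (pp m) ∧ IsAlgebraic ℚ (rr m) := by
  induction m with
  | zero =>
    refine ⟨?_, ?_⟩
    · rw [pp_zero]; exact isAlgebraic_algebraMap (A := ℂ) (4 : ℚ) |> fun h => by simpa using h
    · apply IsAlgebraic.of_pow (n := 2) (by norm_num)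
      rw [rr_zero]; exact isAlgebraic_algebraMap (A := ℂ) (12 : ℚ) |> fun h => by simpa using h
  | succ m ih =>
    refine ⟨?_, ?_⟩
    · rw [pp_succ]; exact ih.1.add ih.2
    · apply IsAlgebraic.of_pow (n := 2) (by norm_num)
      rw [rr_succ]
      have h4 : IsAlgebraic ℚ (4 : ℂ) := by
        have := isAlgebraic_algebraMap (A := ℂ) (4 : ℚ)
        simpa using this
      exact (h4.mul ih.1).mul ih.2

theorem alg_kk (m : ℕ) : IsAlgebraic ℚ (kk m) := by
  have hq : IsAlgebraic ℚ (qq m) := by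
    cases m with
    | zero =>
      rw [qq_zero]
      have := isAlgebraic_algebraMap (A := ℂ) (2 : ℚ)
      simpa using this
    | succ m => rw [qq_succ]; exact (alg_pr m).1.sub (alg_pr m).2
  rw [kk, div_eq_mul_inv]
  exact hq.mul (alg_pr m).1.inv

/-- PACKET SEQ. -/
theorem seq_main : S_SEQ := by
  refine ⟨rr_rel, pp_succ, qq_succ, pp_ne, qq_ne, kk_ne, kk_injective, alg_kk, ?_⟩
  intro A hA
  exact ⟨val_two _ hA, fun m => ⟨(val_seq _ hA m).1, val_qq _ hA m, val_kk _ hA m⟩⟩

end UnrCoh
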